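import Pool.Agent.Helper66_ML.Stmts

/-!
# ML, row MOB: the chains fixed by `x`, `y` and a nontrivial subgroup of `R`

Moebius argument: `V` is the join of all subgroups of `R` which are normalised by `x` and `y`;
for a chain `d` fixed by `x` and `y` the condition is `V ⊓ stab d ≠ ⊥`, and for every `W ≠ ⊥` the
signed number of the chains with `W ≤ V ⊓ stab d` is zero by COX.
-/

open scoped BigOperators

noncomputable section

namespace Pool.Agent.PP.ML.H17

open Pool.Agent.Helper51_AWC Pool.Agent.Helper79_WRA Pool.Agent.PP Pool.Agent.Helper98_CC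

open Classical in
theorem fsum_eq {α : Type*} [Fintype α] (p : α → Prop) (f : α → ℤ) :
    ∑ᶠ (d : α) (_ : p d), f d = ∑ d ∈ Finset.univ.filter p, f d := by
  have h := finsum_mem_finset_eq_sum f (Finset.univ.filter p)
  rw [← h]
  simp

open Classical in
theorem moeb {α P : Type*} [Fintype P] [PartialOrder P] (F : Finset α) (g : α → P) (s : α → ℤ)
    (b : P) (hb : ∀ W, b ≤ W)
    (h : ∀ W, W ≠ b → (∑ d ∈ F.filter (fun d => W ≤ g d), s d = 0) ∨ ∀ d ∈ F, g d ≠ W) :
    ∑ d ∈ F.filter (fun d => g d ≠ b), s d = 0 := by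
  have key : ∀ W : P, W ≠ b → ∑ d ∈ F.filter (fun d => g d = W), s d = 0 := by
    intro W
    induction W using (wellFounded_gt (α := P)).induction with
    | _ W ih =>
      intro hW
      rcases h W hW with h1 | h1
      · have h2 := Finset.sum_fiberwise_of_maps_to (s := F.filter (fun d => W ≤ g d))
          (t := Finset.univ.filter (fun W' => W ≤ W')) (g := g)
          (fun d hd => by simpa using (Finset.mem_filter.1 hd).2) s
        rw [h1] at h2
        have h3 : ∀ W' ∈ Finset.univ.filter (fun W' => W ≤ W'), W' ≠ W →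
            ∑ d ∈ (F.filter (fun d => W ≤ g d)).filter (fun d => g d = W'), s d = 0 := by
          intro W' hW' hne
          have hle : W ≤ W' := (Finset.mem_filter.1 hW').2
          have hlt : W < W' := lt_of_le_of_ne hle (Ne.symm hne)
          have hW'b : W' ≠ b := by
            rintro rfl
            exact hW (le_antisymm hle (hb W))
          rw [← ih W' hlt hW'b]
          apply Finset.sum_congr _ (fun _ _ => rfl)
          ext d
          simp only [Finset.mem_filter]
          constructor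
          · rintro ⟨⟨h4, h5⟩, h6⟩
            exact ⟨h4, h6⟩
          · rintro ⟨h4, h6⟩
            exact ⟨⟨h4, h6 ▸ hle⟩, h6⟩
        rw [Finset.sum_eq_single_of_mem W (by simp) h3] at h2
        rw [← h2]
        apply Finset.sum_congr _ (fun _ _ => rfl)
        ext d
        simp only [Finset.mem_filter]
        constructor
        · rintro ⟨h4, h6⟩
          exact ⟨⟨h4, h6 ▸ le_rfl⟩, h6⟩
        · rintro ⟨⟨h4, h5⟩, h6⟩
          exact ⟨h4, h6⟩
      · apply Finset.sum_eq_zero
        intro d hd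
        exact absurd (Finset.mem_filter.1 hd).2 (h1 d (Finset.mem_filter.1 hd).1)
  have h2 := Finset.sum_fiberwise_of_maps_to (s := F.filter (fun d => g d ≠ b))
    (t := Finset.univ.filter (fun W' => W' ≠ b)) (g := g)
    (fun d hd => by simpa using (Finset.mem_filter.1 hd).2) s
  rw [← h2]
  apply Finset.sum_eq_zero
  intro W hW
  have hWb : W ≠ b := (Finset.mem_filter.1 hW).2
  rw [← key W hWb]
  apply Finset.sum_congr _ (fun _ _ => rfl)
  ext d
  simp only [Finset.mem_filter]
  constructor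
  · rintro ⟨⟨h4, h5⟩, h6⟩
    exact ⟨h4, h6⟩
  · rintro ⟨h4, h6⟩
    exact ⟨⟨h4, h6 ▸ hWb⟩, h6⟩

variable {G : Type} [Group G]

/-- normalised by `x` and `y` -/
def Nm (x y : G) (U : Subgroup G) : Prop :=
  (∀ u ∈ U, x * u * x⁻¹ ∈ U) ∧ ∀ u ∈ U, y * u * y⁻¹ ∈ U

/-- the join of all subgroups of `R` normalised by `x` and `y` -/
def VV (R : Subgroup G) (x y : G) : Subgroup G := sSup {U | U ≤ R ∧ Nm x y U}

theorem VV_le (R : Subgroup G) (x y : G) : VV R x y ≤ R := sSup_le fun _ h => h.1

theorem le_VV {R : Subgroup G} {x y : G} {U : Subgroup G} (h1 : U ≤ R) (h2 : Nm x y U) :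
    U ≤ VV R x y := le_sSup ⟨h1, h2⟩

theorem VV_aux (R : Subgroup G) (x y z : G)
    (hz : ∀ U : Subgroup G, U ≤ R → Nm x y U → ∀ u ∈ U, z * u * z⁻¹ ∈ U) :
    ∀ u ∈ VV R x y, z * u * z⁻¹ ∈ VV R x y := by
  have h : VV R x y ≤ (VV R x y).comap (MulAut.conj z).toMonoidHom := by
    apply sSup_le
    intro U hU u hu
    rw [Subgroup.mem_comap]
    have h1 := hz U hU.1 hU.2 u hu
    exact le_VV hU.1 hU.2 (by simpa using h1)
  intro u hu
  have := h hu
  rw [Subgroup.mem_comap] at this
  simpa using this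

theorem Nm_VV (R : Subgroup G) (x y : G) : Nm x y (VV R x y) :=
  ⟨VV_aux R x y x fun _ _ h => h.1, VV_aux R x y y fun _ _ h => h.2⟩

theorem Nm_inf {x y : G} {U S : Subgroup G} (h : Nm x y U) (hx : x ∈ S) (hy : y ∈ S) :
    Nm x y (U ⊓ S) :=
  ⟨fun u hu => ⟨h.1 u hu.1, S.mul_mem (S.mul_mem hx hu.2) (S.inv_mem hx)⟩,
    fun u hu => ⟨h.2 u hu.1, S.mul_mem (S.mul_mem hy hu.2) (S.inv_mem hy)⟩⟩

/-- MOB from COX. -/
theorem mob (cox : CoxStmt) : MobStmt := by
  classical
  intro ℓ _ G _ _ R hR x y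
  have := Fintype.ofFinite (Subgroup G)
  rw [fsum_eq]
  let F : Finset (Finset (Subgroup G)) :=
    Finset.univ.filter (fun d => d ∈ pChains ℓ G ∧ x ∈ stab d ∧ y ∈ stab d)
  let g : Finset (Subgroup G) → Subgroup G := fun d => VV R x y ⊓ stab d
  have hm := moeb F g (fun d => (-1 : ℤ) ^ d.card) ⊥ (fun W => bot_le) (by
    intro W hW
    by_cases hn : W ≤ VV R x y ∧ Nm x y W
    · left
      have hc := cox ℓ G (Subgroup.closure {x, y} ⊔ W) W hW
        (hR.to_le (hn.1.trans (VV_le R x y))) le_sup_right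
        (sup_le ((Subgroup.closure_le _).2 (by
          intro z hz
          rcases hz with rfl | rfl
          · exact Subgroup.mem_normalizer_fintype fun n hn' => hn.2.1 n hn'
          · exact Subgroup.mem_normalizer_fintype fun n hn' => hn.2.2 n hn'))
          Subgroup.le_normalizer)
      rw [fsum_eq] at hc
      rw [← hc]
      apply Finset.sum_congr _ (fun _ _ => rfl)
      ext d
      simp only [Finset.mem_filter, Finset.mem_univ, true_and, F, g, le_inf_iff, sup_le_iff,
        Subgroup.closure_le]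
      constructor
      · rintro ⟨⟨h1, h2, h3⟩, h4, h5⟩
        refine ⟨h1, ?_, h5⟩
        intro z hz
        rcases hz with rfl | rfl
        · exact h2
        · exact h3
      · rintro ⟨h1, h2, h3⟩
        exact ⟨⟨h1, h2 (by simp), h2 (by simp)⟩, hn.1, h3⟩
    · right
      intro d hd he
      apply hn
      have hd' := (Finset.mem_filter.1 hd).2
      rw [← he]
      exact ⟨inf_le_left, Nm_inf (Nm_VV R x y) hd'.2.1 hd'.2.2⟩)
  rw [← hm]
  apply Finset.sum_congr _ (fun _ _ => rfl)
  ext d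
  simp only [Finset.mem_filter, Finset.mem_univ, true_and, F, g]
  constructor
  · rintro ⟨h1, h2, h3, U, hU, h4, h5, h6, h7⟩
    refine ⟨⟨h1, h2, h3⟩, fun h => hU ?_⟩
    rw [eq_bot_iff, ← h]
    exact le_inf (le_VV h4 ⟨h6, h7⟩) h5
  · rintro ⟨⟨h1, h2, h3⟩, h⟩
    have hN := Nm_inf (Nm_VV R x y) h2 h3
    exact ⟨h1, h2, h3, VV R x y ⊓ stab d, h, inf_le_left.trans (VV_le R x y), inf_le_right,
      hN.1, hN.2⟩

end Pool.Agent.PP.ML.H17
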